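import Pool.Agent.Helper64.PC.Height
import Pool.Agent.Helper52.Vojta.BaseChange

/-!
# UD: normalised Weil functions

From the inequality with the affine heights of the coefficients of the forms `g i` to the scale invariant form of it.
-/

set_option autoImplicit false

namespace Pool.Agent.UD

open NumberField Pool.Agent.Helper64.Vojta Pool.Agent.PC MvPolynomial

universe u

variable {k : Type u} [Field k] [NumberField k] {N d : ℕ}

/-- the size of the form with coefficients `g` at the place `ν` -/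
noncomputable def gn (ν : Pl k) (g : Sym (Fin (N + 1)) d → k) : ℝ := ⨆ s, nv ν (g s)

/-- the Weil function, invariant under scalars -/
noncomputable def lamN (g : Sym (Fin (N + 1)) d → k) (ν : Pl k) (x : Fin (N + 1) → AlgebraicClosure k) : ℝ :=
  Real.log (gn ν g) + lam g ν x

theorem gn_smul (ν : Pl k) (g : Sym (Fin (N + 1)) d → k) (c : k) :
    gn ν (fun s => c * g s) = nv ν c * gn ν g := by
  unfold gn
  rw [Real.mul_iSup_of_nonneg (nv_nonneg ν c)]
  congr 1
  funext s
  exact nv_mul ν c (g s)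

theorem le_gn (ν : Pl k) (g : Sym (Fin (N + 1)) d → k) (s : Sym (Fin (N + 1)) d) : nv ν (g s) ≤ gn ν g :=
  le_ciSup (f := fun s => nv ν (g s)) (Set.finite_range _).bddAbove s

theorem val_smul (g : Sym (Fin (N + 1)) d → k) (c : k) (x : Fin (N + 1) → AlgebraicClosure k) :
    val (fun s => c * g s) x = algebraMap k (Chart.fld x) c * val g x := by
  unfold val
  rw [Finset.mul_sum]
  refine Finset.sum_congr rfl fun s _ => ?_
  rw [map_mul, mul_assoc]

theorem lam_smul (g : Sym (Fin (N + 1)) d → k) (c : k) (hc : c ≠ 0) (ν : Pl k) (x : Fin (N + 1) → AlgebraicClosure k)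
    (h : val g x ≠ 0) : lam (fun s => c * g s) ν x = lam g ν x - Real.log (nv ν c) := by
  have hd : (Chart.dg x : ℝ) ≠ 0 := by
    have h1 : 0 < Module.finrank k (Chart.fld x) := Module.finrank_pos
    exact_mod_cast h1.ne'
  unfold lam
  rw [val_smul, eq_sub_iff_add_eq, eq_div_iff hd, add_mul, div_mul_cancel₀ _ hd]
  have h1 := Pool.Agent.Helper52.Vojta.sum_log_nv (L := k) (L' := Chart.fld x) ν c
  have h2 : Real.log (nv ν c) * (Chart.dg x : ℝ) = ∑ w ∈ above (Chart.fld x) ν,
      Real.log (nv w (algebraMap k (Chart.fld x) c)) := by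
    rw [h1, mul_comm]
    rfl
  rw [h2, ← Finset.sum_add_distrib]
  refine Finset.sum_congr rfl fun w _ => ?_
  have hc' : algebraMap k (Chart.fld x) c ≠ 0 := (map_ne_zero _).2 hc
  rw [nv_mul, Real.log_mul (nv_pos w hc').ne' (nv_pos w h).ne']
  ring

/-- the sum of the sizes of a form with a coefficient one -/
theorem sum_log_gn_le (S : Finset (Pl k)) (g : Sym (Fin (N + 1)) d → k) (s : Sym (Fin (N + 1)) d) (hs : g s = 1) :
    ∑ ν ∈ S, Real.log (gn ν g) ≤ Height.logHeight g := by
  classical
  let e : Fin (Fintype.card (Sym (Fin (N + 1)) d)) ≃ Sym (Fin (N + 1)) d := (Fintype.equivFin _).symm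
  set x : Fin (Fintype.card (Sym (Fin (N + 1)) d)) → k := fun i => g (e i) with hx
  have hgn : ∀ ν : Pl k, gn ν g = sn ν x := by
    intro ν
    unfold gn sn
    exact (e.iSup_comp (g := fun s => nv ν (g s))).symm
  have hx0 : x ≠ 0 := by
    intro h
    have h1 := congrFun h (e.symm s)
    rw [hx] at h1
    simp only [Equiv.apply_symm_apply, hs, Pi.zero_apply] at h1
    exact one_ne_zero h1
  have h0 : ∀ ν : Pl k, 0 ≤ Real.log (sn ν x) := by
    intro ν
    rw [← hgn]
    refine Real.log_nonneg ?_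
    have h1 := le_gn ν g s
    rwa [hs, nv_one] at h1
  have hfs : (Function.support fun w : FinitePlace k => Real.log (sn (.inr w) x)).Finite :=
    log_support _ (fin_support_sn hx0)
  set W : Finset (Pl k) := S ∪ (Finset.univ.image Sum.inl ∪ hfs.toFinset.image Sum.inr) with hW
  have h1 := Pool.Agent.Helper52.Vojta.logHeight_eq_sum hx0 W (by
    intro w
    simp [hW]) (by
    intro w hw
    simp only [hW, Finset.mem_union, Finset.mem_image, Set.Finite.mem_toFinset]
    right
    right
    exact ⟨w, hw, rfl⟩)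
  have h2 : Height.logHeight x = Height.logHeight g := Height.logHeight_comp_equiv e g
  rw [← h2, h1]
  refine (Finset.sum_congr rfl fun ν _ => by rw [hgn]).le.trans ?_
  exact Finset.sum_le_sum_of_subset_of_nonneg Finset.subset_union_left fun ν _ _ => h0 ν

/-- a nonzero polynomial does not vanish at some small multiple of the arguments -/
theorem exists_scale {K : Type u} [Field K] [CharZero K] {q : ℕ} {σ : Type} [Fintype σ]
    (Φ : MvPolynomial (Fin q × σ) K) (g : Fin q → σ → K) (c : Fin q → K)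
    (h : eval (fun p : Fin q × σ => c p.1 * g p.1 p.2) Φ ≠ 0) :
    ∃ t : Fin q → Fin (Φ.totalDegree + 1), eval (fun p : Fin q × σ => (((t p.1 : ℕ) : K) + 1) * g p.1 p.2) Φ ≠ 0 := by
  classical
  let f : Fin q × σ → MvPolynomial (Fin q) K := fun p => X p.1 * C (g p.1 p.2)
  set Ψ : MvPolynomial (Fin q) K := bind₁ f Φ with hΨ
  have hev : ∀ t : Fin q → K, eval t Ψ = eval (fun p : Fin q × σ => t p.1 * g p.1 p.2) Φ := by
    intro t
    rw [hΨ, ← coe_aeval_eq_eval, ← coe_aeval_eq_eval]
    show aeval t (bind₁ f Φ) = aeval _ Φ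
    rw [aeval_bind₁]
    congr 1
    congr 1
    funext p
    show aeval t (X p.1 * C (g p.1 p.2)) = t p.1 * g p.1 p.2
    rw [map_mul, aeval_X, aeval_C]
    rfl
  have hΨ0 : Ψ ≠ 0 := by
    intro h0
    apply h
    rw [← hev, h0, map_zero]
  have hdeg : Ψ.totalDegree ≤ Φ.totalDegree := by
    rw [hΨ]
    have h1 : bind₁ f Φ = ∑ m ∈ Φ.support, C (coeff m Φ) * ∏ p ∈ m.support, f p ^ m p := by
      conv_lhs => rw [Φ.as_sum]
      rw [map_sum]
      refine Finset.sum_congr rfl fun m _ => ?_
      rw [bind₁_monomial]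
    rw [h1]
    refine (totalDegree_finset_sum _ _).trans (Finset.sup_le fun m hm => ?_)
    refine (totalDegree_mul _ _).trans ?_
    rw [totalDegree_C, zero_add]
    refine (totalDegree_finset_prod _ _).trans ?_
    refine le_trans (Finset.sum_le_sum (g := fun p => m p) fun p _ => ?_) (le_totalDegree hm)
    refine (totalDegree_pow _ _).trans ?_
    have h2 : (f p).totalDegree ≤ 1 := by
      refine (totalDegree_mul _ _).trans ?_
      rw [totalDegree_C, add_zero]
      exact (totalDegree_X _).le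
    calc m p * (f p).totalDegree ≤ m p * 1 := Nat.mul_le_mul_left _ h2
      _ = m p := mul_one _
  by_contra hcon
  push Not at hcon
  apply hΨ0
  let T : Finset K := Finset.univ.image fun i : Fin (Φ.totalDegree + 1) => ((i : ℕ) : K) + 1
  have hT : T.card = Φ.totalDegree + 1 := by
    rw [Finset.card_image_of_injective, Finset.card_univ, Fintype.card_fin]
    intro i j hij
    have h1 : ((i : ℕ) : K) + 1 = ((j : ℕ) : K) + 1 := hij
    have h2 := add_right_cancel h1
    exact Fin.ext (Nat.cast_injective h2)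
  refine eq_zero_of_eval_zero_at_prod_finset Ψ (fun _ => T) (fun i => ?_) fun x hx => ?_
  · rw [hT]
    exact Nat.lt_succ_of_le ((degreeOf_le_totalDegree _ _).trans hdeg)
  · have h1 : ∀ i, ∃ t : Fin (Φ.totalDegree + 1), ((t : ℕ) : K) + 1 = x i := by
      intro i
      obtain ⟨t, -, ht⟩ := Finset.mem_image.1 (hx i)
      exact ⟨t, ht⟩
    choose t ht using h1
    rw [hev]
    have h2 := hcon t
    simp only [ht] at h2
    exact h2

/-- The scale invariant form of the inequality. -/
theorem norm_main {k₀ : Type u} [Field k₀] [Algebra k₀ k] {q : ℕ}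
    (Φ : MvPolynomial (Fin q × Sym (Fin (N + 1)) d) k₀) (S : Finset (Pl k)) (A C : ℝ)
    (P : (Fin (N + 1) → AlgebraicClosure k) → Prop)
    (h : ∀ g : Fin q → Sym (Fin (N + 1)) d → k, aeval (fun p : Fin q × Sym (Fin (N + 1)) d => g p.1 p.2) Φ ≠ 0 →
      ∀ x, P x → (∀ i, val (g i) x ≠ 0) →
        ∑ ν ∈ S, ∑ i, lam (g i) ν x ≤ A * Chart.hgt x + C * (1 + ∑ i, ∑ s, Height.logHeight₁ (g i s))) :
    ∃ C' : ℝ, ∀ g : Fin q → Sym (Fin (N + 1)) d → k,
      aeval (fun p : Fin q × Sym (Fin (N + 1)) d => g p.1 p.2) Φ ≠ 0 → ∀ x, P x → (∀ i, val (g i) x ≠ 0) →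
        ∑ ν ∈ S, ∑ i, lamN (g i) ν x ≤ A * Chart.hgt x + C' * (1 + ∑ i, Height.logHeight (g i)) := by
  classical
  set Φ' : MvPolynomial (Fin q × Sym (Fin (N + 1)) d) k := map (algebraMap k₀ k) Φ with hΦ'
  have hΦe : ∀ g : Fin q → Sym (Fin (N + 1)) d → k, aeval (fun p : Fin q × Sym (Fin (N + 1)) d => g p.1 p.2) Φ =
      eval (fun p : Fin q × Sym (Fin (N + 1)) d => g p.1 p.2) Φ' := by
    intro g
    rw [hΦ', aeval_def, eval_map]
  set D := Φ'.totalDegree with hD
  -- bounds for the scalars
  let b : Fin (D + 1) → k := fun i => ((i : ℕ) : k) + 1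
  have hb0 : ∀ i, b i ≠ 0 := fun i => Nat.cast_add_one_ne_zero _
  set B : ℝ := ∑ i, Height.logHeight₁ (b i) with hB
  have hbB : ∀ i, Height.logHeight₁ (b i) ≤ B := fun i =>
    Finset.single_le_sum (f := fun i => Height.logHeight₁ (b i)) (fun i _ => Height.zero_le_logHeight₁ _) (Finset.mem_univ i)
  set B' : ℝ := ∑ i, ∑ ν ∈ S, |Real.log (nv ν (b i))| with hB'
  have hbB' : ∀ i, ∑ ν ∈ S, Real.log (nv ν (b i)) ≤ B' := fun i =>
    (Finset.sum_le_sum fun ν _ => le_abs_self _).trans
      (Finset.single_le_sum (f := fun i => ∑ ν ∈ S, |Real.log (nv ν (b i))|)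
        (fun i _ => Finset.sum_nonneg fun ν _ => abs_nonneg _) (Finset.mem_univ i))
  have hB0 : 0 ≤ B := Finset.sum_nonneg fun i _ => Height.zero_le_logHeight₁ _
  have hB'0 : 0 ≤ B' := Finset.sum_nonneg fun i _ => Finset.sum_nonneg fun ν _ => abs_nonneg _
  set M : ℝ := (Fintype.card (Sym (Fin (N + 1)) d) : ℝ) with hM
  have hM0 : 0 ≤ M := Nat.cast_nonneg _
  refine ⟨1 + q * B' + |C| * (1 + q * M * B + M), fun g hg x hx hne => ?_⟩
  -- nonzero coefficients
  have hg0 : ∀ i, ∃ s, g i s ≠ 0 := by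
    intro i
    by_contra hcon
    push Not at hcon
    apply hne i
    unfold val
    refine Finset.sum_eq_zero fun s _ => ?_
    rw [hcon s, map_zero, zero_mul]
  choose s hs using hg0
  set g' : Fin q → Sym (Fin (N + 1)) d → k := fun i a => (g i (s i))⁻¹ * g i a with hg'
  have hg's : ∀ i, g' i (s i) = 1 := fun i => inv_mul_cancel₀ (hs i)
  have hgg' : ∀ i, g i = fun a => g i (s i) * g' i a := by
    intro i
    funext a
    rw [hg']
    simp only
    rw [mul_inv_cancel_left₀ (hs i)]
  obtain ⟨t, ht⟩ := exists_scale Φ' g' (fun i => g i (s i)) (by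
    rw [hΦe] at hg
    have h1 : (fun p : Fin q × Sym (Fin (N + 1)) d => g p.1 (s p.1) * g' p.1 p.2) = fun p => g p.1 p.2 := by
      funext p
      exact (congrFun (hgg' p.1) p.2).symm
    rw [h1]
    exact hg)
  have ht' : aeval (fun p : Fin q × Sym (Fin (N + 1)) d => b (t p.1) * g' p.1 p.2) Φ ≠ 0 := by
    have h1 := hΦe fun i a => b (t i) * g' i a
    rw [h1]
    exact ht
  have hval : ∀ i, val (g' i) x ≠ 0 := by
    intro i h0
    apply hne i
    rw [hgg' i, val_smul, h0, mul_zero]
  have hval' : ∀ i, val (fun a => b (t i) * g' i a) x ≠ 0 := by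
    intro i
    rw [val_smul]
    exact mul_ne_zero ((map_ne_zero _).2 (hb0 _)) (hval i)
  have h1 := h (fun i a => b (t i) * g' i a) ht' x hx hval'
  have hH : ∀ i, Height.logHeight (g i) = Height.logHeight (g' i) := by
    intro i
    have h2 := Height.logHeight_smul_eq_logHeight (g' i) (hs i)
    rw [← h2]
    congr 1
    exact hgg' i
  have hH0 : ∀ i, 0 ≤ Height.logHeight (g i) := fun i => Height.logHeight_nonneg _
  -- the heights
  have h3 : ∑ i, ∑ a, Height.logHeight₁ (b (t i) * g' i a) ≤ q * M * B + M * ∑ i, Height.logHeight (g i) := by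
    have h4 : ∀ i, ∑ a, Height.logHeight₁ (b (t i) * g' i a) ≤ M * (B + Height.logHeight (g i)) := by
      intro i
      have h5 : ∀ a, Height.logHeight₁ (b (t i) * g' i a) ≤ B + Height.logHeight (g i) := by
        intro a
        refine (Height.logHeight₁_mul_le _ _).trans (add_le_add (hbB _) ?_)
        rw [hH, Height.logHeight₁_eq_logHeight]
        have h6 : ![g' i a, 1] = g' i ∘ ![a, s i] := by
          funext c
          fin_cases c
          · rfl
          · exact (hg's i).symm
        rw [h6]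
        exact Height.logHeight_comp_le _ _
      refine (Finset.sum_le_sum fun a _ => h5 a).trans (le_of_eq ?_)
      rw [Finset.sum_const, Finset.card_univ, nsmul_eq_mul]
    refine (Finset.sum_le_sum fun i _ => h4 i).trans (le_of_eq ?_)
    rw [← Finset.mul_sum, Finset.sum_add_distrib, Finset.sum_const, Finset.card_univ, Fintype.card_fin, nsmul_eq_mul]
    ring
  -- the Weil functions
  have h7 : ∀ i, ∑ ν ∈ S, lamN (g i) ν x ≤ Height.logHeight (g i) + B' +
      ∑ ν ∈ S, lam (fun a => b (t i) * g' i a) ν x := by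
    intro i
    have h8 : ∀ ν, lamN (g i) ν x = Real.log (gn ν (g' i)) + Real.log (nv ν (b (t i))) +
        lam (fun a => b (t i) * g' i a) ν x := by
      intro ν
      have h9 : lam (g i) ν x = lam (g' i) ν x - Real.log (nv ν (g i (s i))) := by
        conv_lhs => rw [hgg' i]
        exact lam_smul _ _ (hs i) ν x (hval i)
      have h10 : gn ν (g i) = nv ν (g i (s i)) * gn ν (g' i) := by
        conv_lhs => rw [hgg' i]
        exact gn_smul _ _ _
      have h11 : 0 < gn ν (g' i) := by
        refine lt_of_lt_of_le ?_ (le_gn ν (g' i) (s i))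
        rw [hg's, nv_one]
        exact one_pos
      unfold lamN
      rw [h9, h10, Real.log_mul (nv_pos ν (hs i)).ne' h11.ne', lam_smul _ _ (hb0 _) ν x (hval i)]
      ring
    rw [Finset.sum_congr rfl fun ν _ => h8 ν, Finset.sum_add_distrib, Finset.sum_add_distrib, hH]
    exact add_le_add_left (add_le_add (sum_log_gn_le S (g' i) (s i) (hg's i)) (hbB' _)) _
  have h12 : ∑ ν ∈ S, ∑ i, lamN (g i) ν x ≤ ∑ i, Height.logHeight (g i) + q * B' +
      ∑ ν ∈ S, ∑ i, lam (fun a => b (t i) * g' i a) ν x := by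
    rw [Finset.sum_comm, Finset.sum_comm (s := S)]
    refine (Finset.sum_le_sum fun i _ => h7 i).trans (le_of_eq ?_)
    rw [Finset.sum_add_distrib, Finset.sum_add_distrib, Finset.sum_const, Finset.card_univ, Fintype.card_fin, nsmul_eq_mul]
  have hsum0 : 0 ≤ ∑ i, Height.logHeight (g i) := Finset.sum_nonneg fun i _ => hH0 i
  have hpos : 0 ≤ ∑ i, ∑ a, Height.logHeight₁ (b (t i) * g' i a) :=
    Finset.sum_nonneg fun i _ => Finset.sum_nonneg fun a _ => Height.zero_le_logHeight₁ _
  have h13 : C * (1 + ∑ i, ∑ a, Height.logHeight₁ (b (t i) * g' i a)) ≤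
      |C| * (1 + (q * M * B + M * ∑ i, Height.logHeight (g i))) := by
    refine (mul_le_mul_of_nonneg_right (le_abs_self C) (by linarith)).trans ?_
    exact mul_le_mul_of_nonneg_left (by linarith) (abs_nonneg C)
  have hq0 : (0 : ℝ) ≤ q := Nat.cast_nonneg _
  set Hs : ℝ := ∑ i, Height.logHeight (g i) with hHs
  have h14 : (1 + q * B' + |C| * (1 + q * M * B + M)) * (1 + Hs) = Hs + q * B' +
      |C| * (1 + (q * M * B + M * Hs)) + (1 + q * B' * Hs + |C| * (M + (1 + q * M * B) * Hs)) := by ring
  have h15 : 0 ≤ 1 + q * B' * Hs + |C| * (M + (1 + q * M * B) * Hs) := by positivity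
  rw [h14]
  linarith

end Pool.Agent.UD
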